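import Pool.Agent.H41.PS.Stm

set_option autoImplicit false

/-! The lanes of `XX u1 u2` (helper297, part PAIR of the plan of helper41). -/

namespace Pool.Agent.H297.PS

open Pool.Agent.H41.PS

lemma F_lt : F < 2 ^ 1024 := by decide +kernel

lemma F4_lt : F4 < 2 ^ 4096 := by decide +kernel

lemma X0_lt : X0 < 2 ^ 8192 := by decide +kernel

lemma F4_eq : F4 = F ||| (F <<< 1024 ||| (F <<< 2048 ||| F <<< 3072)) := by decide +kernel

lemma X0_eq : X0 = F4 ||| (2 ^ 4096 - 1) <<< 4096 := by decide +kernel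

lemma N1_eq : N1 = (2 ^ 1024 - 1) ||| (2 ^ 1024 - 1) <<< 2048 := by decide +kernel

lemma N2_eq : N2 = 2 ^ 2048 - 1 := by decide +kernel

lemma tb_big {a n i : ℕ} (h : a < 2 ^ n) (hi : n ≤ i) : a.testBit i = false :=
  Nat.testBit_lt_two_pow (h.trans_le (Nat.pow_le_pow_right (by norm_num) hi))

lemma F4_bit {l x : ℕ} (hl : l < 4) (hx : x < 1024) : F4.testBit (1024 * l + x) = F.testBit x := by
  rw [F4_eq, Nat.testBit_or, Nat.testBit_or, Nat.testBit_or, Nat.testBit_shiftLeft,
    Nat.testBit_shiftLeft, Nat.testBit_shiftLeft]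
  interval_cases l
  · have h1 : decide (1024 * 0 + x ≥ 1024) = false := decide_eq_false (by omega)
    have h2 : decide (1024 * 0 + x ≥ 2048) = false := decide_eq_false (by omega)
    have h3 : decide (1024 * 0 + x ≥ 3072) = false := decide_eq_false (by omega)
    have h4 : 1024 * 0 + x = x := by omega
    rw [h1, h2, h3, h4]
    simp
  · have h0 : F.testBit (1024 * 1 + x) = false := tb_big F_lt (by omega)
    have h1 : decide (1024 * 1 + x ≥ 1024) = true := decide_eq_true (by omega)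
    have h2 : decide (1024 * 1 + x ≥ 2048) = false := decide_eq_false (by omega)
    have h3 : decide (1024 * 1 + x ≥ 3072) = false := decide_eq_false (by omega)
    have h4 : 1024 * 1 + x - 1024 = x := by omega
    rw [h0, h1, h2, h3, h4]
    simp
  · have h0 : F.testBit (1024 * 2 + x) = false := tb_big F_lt (by omega)
    have h1 : F.testBit (1024 * 2 + x - 1024) = false := tb_big F_lt (by omega)
    have h2 : decide (1024 * 2 + x ≥ 2048) = true := decide_eq_true (by omega)
    have h3 : decide (1024 * 2 + x ≥ 3072) = false := decide_eq_false (by omega)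
    have h4 : 1024 * 2 + x - 2048 = x := by omega
    rw [h0, h1, h2, h3, h4]
    simp
  · have h0 : F.testBit (1024 * 3 + x) = false := tb_big F_lt (by omega)
    have h1 : F.testBit (1024 * 3 + x - 1024) = false := tb_big F_lt (by omega)
    have h2 : F.testBit (1024 * 3 + x - 2048) = false := tb_big F_lt (by omega)
    have h3 : decide (1024 * 3 + x ≥ 3072) = true := decide_eq_true (by omega)
    have h4 : 1024 * 3 + x - 3072 = x := by omega
    rw [h0, h1, h2, h3, h4]
    simp

lemma X0_low {i : ℕ} (hi : i < 4096) : X0.testBit i = F4.testBit i := by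
  rw [X0_eq, Nat.testBit_or, Nat.testBit_shiftLeft]
  have h1 : decide (i ≥ 4096) = false := decide_eq_false (by omega)
  rw [h1]
  simp

lemma X0_high {i : ℕ} (hi : i < 4096) : X0.testBit (4096 + i) = true := by
  rw [X0_eq, Nat.testBit_or, Nat.testBit_shiftLeft]
  have h1 : decide (4096 + i ≥ 4096) = true := decide_eq_true (by omega)
  have h2 : 4096 + i - 4096 = i := by omega
  rw [h1, h2, Nat.testBit_two_pow_sub_one, decide_eq_true hi, Bool.and_self, Bool.or_true]

lemma N1_bit (l1 l2 : Bool) {x : ℕ} (hx : x < 1024) :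
    N1.testBit (1024 * (l1.toNat + 2 * l2.toNat) + x) = !l1 := by
  rw [N1_eq, Nat.testBit_or, Nat.testBit_shiftLeft, Nat.testBit_two_pow_sub_one,
    Nat.testBit_two_pow_sub_one]
  cases l1 <;> cases l2
  · simp only [Bool.toNat_false]
    rw [decide_eq_true (by omega : 1024 * (0 + 2 * 0) + x < 1024)]
    simp
  · simp only [Bool.toNat_false, Bool.toNat_true]
    rw [decide_eq_true (by omega : 1024 * (0 + 2 * 1) + x ≥ 2048),
      decide_eq_true (by omega : 1024 * (0 + 2 * 1) + x - 2048 < 1024)]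
    simp
  · simp only [Bool.toNat_false, Bool.toNat_true]
    rw [decide_eq_false (by omega : ¬ 1024 * (1 + 2 * 0) + x < 1024),
      decide_eq_false (by omega : ¬ 1024 * (1 + 2 * 0) + x ≥ 2048)]
    simp
  · simp only [Bool.toNat_true]
    rw [decide_eq_false (by omega : ¬ 1024 * (1 + 2 * 1) + x < 1024),
      decide_eq_false (by omega : ¬ 1024 * (1 + 2 * 1) + x - 2048 < 1024)]
    simp

lemma N2_bit (l1 l2 : Bool) {x : ℕ} (hx : x < 1024) :
    N2.testBit (1024 * (l1.toNat + 2 * l2.toNat) + x) = !l2 := by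
  rw [N2_eq, Nat.testBit_two_pow_sub_one]
  cases l1 <;> cases l2
  · simp only [Bool.toNat_false]
    rw [decide_eq_true (by omega : 1024 * (0 + 2 * 0) + x < 2048)]
    simp
  · simp only [Bool.toNat_false, Bool.toNat_true]
    rw [decide_eq_false (by omega : ¬ 1024 * (0 + 2 * 1) + x < 2048)]
    simp
  · simp only [Bool.toNat_false, Bool.toNat_true]
    rw [decide_eq_true (by omega : 1024 * (1 + 2 * 0) + x < 2048)]
    simp
  · simp only [Bool.toNat_true]
    rw [decide_eq_false (by omega : ¬ 1024 * (1 + 2 * 1) + x < 2048)]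
    simp

lemma xor_lt {x u : ℕ} (hx : x < 1024) (hu : u < 1024) : x ^^^ u < 1024 :=
  Nat.xor_lt_two_pow (n := 10) hx hu

lemma add_xor (l : ℕ) {x u : ℕ} (hx : x < 1024) (hu : u < 1024) :
    (1024 * l + x) ^^^ u = 1024 * l + (x ^^^ u) := by
  refine Nat.eq_of_testBit_eq fun j => ?_
  have h1 := Nat.testBit_two_pow_mul_add l (i := 10) hx j
  have h2 := Nat.testBit_two_pow_mul_add l (i := 10) (xor_lt hx hu) j
  have e : (2 : ℕ) ^ 10 = 1024 := by norm_num
  rw [e] at h1 h2
  rw [Nat.testBit_xor, h1, h2]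
  split_ifs with h
  · rw [Nat.testBit_xor]
  · rw [tb_big (a := u) (n := 10) hu (by omega), Bool.xor_false]

lemma st_low (N X Z : ℕ) {i : ℕ} (hi : i < 4096) : (st N X Z).testBit i = F4.testBit i := by
  show (F4 ||| ((((X &&& Z) >>> 4096) &&& ((X ^^^ Z) ^^^ N)) <<< 4096)).testBit i = _
  rw [Nat.testBit_or, Nat.testBit_shiftLeft, decide_eq_false (by omega : ¬ i ≥ 4096)]
  simp

lemma st_high (N X Z : ℕ) (i : ℕ) : (st N X Z).testBit (4096 + i) =
    ((X.testBit (4096 + i) && Z.testBit (4096 + i)) &&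
      ((X.testBit i ^^ Z.testBit i) ^^ N.testBit i)) := by
  show (F4 ||| ((((X &&& Z) >>> 4096) &&& ((X ^^^ Z) ^^^ N)) <<< 4096)).testBit (4096 + i) = _
  rw [Nat.testBit_or, Nat.testBit_shiftLeft, decide_eq_true (by omega : 4096 + i ≥ 4096),
    tb_big F4_lt (by omega : 4096 ≤ 4096 + i), (by omega : 4096 + i - 4096 = i),
    Nat.testBit_and, Nat.testBit_shiftRight, Nat.testBit_and, Nat.testBit_xor, Nat.testBit_xor]
  simp

lemma shift_lt (A B c : ℕ) (hA : A < 2 ^ (c + c)) : ((A >>> c) &&& B) <<< c < 2 ^ (c + c) := by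
  rw [Nat.shiftLeft_eq, pow_add]
  refine Nat.mul_lt_mul_of_pos_right ?_ (Nat.pow_pos (by omega))
  refine (Nat.and_le_left).trans_lt ?_
  rw [Nat.shiftRight_eq_div_pow]
  refine Nat.div_lt_of_lt_mul ?_
  rwa [← pow_add]

lemma st_lt (N Z : ℕ) {X : ℕ} (hX : X < 2 ^ 8192) : st N X Z < 2 ^ 8192 := by
  have e : (8192 : ℕ) = 4096 + 4096 := by norm_num
  rw [e] at hX ⊢
  refine Nat.or_lt_two_pow ?_ ?_
  · exact F4_lt.trans_le (Nat.pow_le_pow_right (by omega) (by omega))
  · exact shift_lt (X &&& Z) ((X ^^^ Z) ^^^ N) 4096 ((Nat.and_le_left).trans_lt hX)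

theorem t_PAIR (h : S_TRN) : S_PAIR := by
  intro u1 u2 hu1 hu2
  have hu1' : u1 < 1024 := by omega
  have hu2' : u2 < 1024 := by omega
  obtain ⟨_, hb1⟩ := h u1 X0 hu1 X0_lt
  set X1 : ℕ := st N1 X0 (trn u1 ml X0) with hX1
  have hX1lt : X1 < 2 ^ 8192 := st_lt _ _ X0_lt
  obtain ⟨_, hb2⟩ := h u2 X1 hu2 hX1lt
  have hXX : XX u1 u2 = st N2 X1 (trn u2 ml X1) := rfl
  have hlowX1 : ∀ l < 4, ∀ x < 1024, X1.testBit (1024 * l + x) = F.testBit x := by
    intro l hl x hx
    rw [hX1, st_low _ _ _ (by omega), F4_bit hl hx]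
  have hX0F : ∀ l < 4, ∀ x < 1024, X0.testBit (1024 * l + x) = F.testBit x := by
    intro l hl x hx
    rw [X0_low (by omega), F4_bit hl hx]
  rw [hXX]
  refine ⟨st_lt _ _ hX1lt, fun l hl x hx => ?_, fun l1 l2 x hx h1 h2 h3 => ?_⟩
  · rw [st_low _ _ _ (by omega), F4_bit hl hx]
  · set l : ℕ := l1.toNat + 2 * l2.toNat with hl
    have hl4 : l < 4 := by
      rw [hl]; cases l1 <;> cases l2 <;> simp
    -- the set `X1`
    have key : ∀ y < 1024, F.testBit (y ^^^ u1) = (F.testBit y ^^ l1) →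
        X1.testBit (4096 + (1024 * l + y)) = true := by
      intro y hy hFy
      rw [hX1, st_high, X0_high (by omega), hb1 _ (by omega), hb1 _ (by omega),
        hX0F l hl4 y hy, add_xor l hy hu1', hX0F l hl4 _ (xor_lt hy hu1')]
      have e : 4096 + (1024 * l + y) = 1024 * (4 + l) + y := by ring
      rw [e, add_xor (4 + l) hy hu1']
      have e' : 1024 * (4 + l) + (y ^^^ u1) = 4096 + (1024 * l + (y ^^^ u1)) := by ring
      have hyu := xor_lt hy hu1'
      rw [e', X0_high (by omega), hl, N1_bit l1 l2 hy, hFy]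
      cases F.testBit y <;> cases l1 <;> rfl
    have e0 : 4096 + 1024 * l + x = 4096 + (1024 * l + x) := by ring
    have hxu := xor_lt hx hu2'
    rw [e0, st_high, key x hx h1, hb2 _ (by omega), hb2 _ (by omega), hlowX1 l hl4 x hx,
      add_xor l hx hu2', hlowX1 l hl4 _ hxu]
    have e : 4096 + (1024 * l + x) = 1024 * (4 + l) + x := by ring
    rw [e, add_xor (4 + l) hx hu2']
    have e' : 1024 * (4 + l) + (x ^^^ u2) = 4096 + (1024 * l + (x ^^^ u2)) := by ring
    have hF3 : F.testBit (x ^^^ u2 ^^^ u1) = (F.testBit (x ^^^ u2) ^^ l1) := by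
      have e4 : x ^^^ u2 ^^^ u1 = x ^^^ u1 ^^^ u2 := by
        rw [Nat.xor_assoc, Nat.xor_comm u2 u1, ← Nat.xor_assoc]
      rw [e4, h3, h2]
      cases F.testBit x <;> cases l1 <;> cases l2 <;> rfl
    rw [e', key _ hxu hF3, hl, N2_bit l1 l2 hx, h2]
    cases F.testBit x <;> cases l2 <;> rfl

end Pool.Agent.H297.PS

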